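import Mathlib
import Pool.Agent.H452R3.CHI.Stmts

/-! Project H452-CHI, task Cells: law of large numbers for the cell counts. -/

open MeasureTheory ProbabilityTheory

namespace Pool.Agent.H339R3.CHI

open Pool.Agent.H452R3.CHI

/-- the uniform law on `[0,1]` -/
noncomputable def u01 : Measure ℝ := (volume : Measure ℝ).restrict (Set.Icc (0:ℝ) 1)

instance : IsProbabilityMeasure u01 := by
  refine ⟨?_⟩
  rw [u01, Measure.restrict_apply_univ, Real.volume_Icc]
  simp

lemma measurable_cidx (q : ℕ) : Measurable (cidx q) := by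
  unfold cidx
  exact Nat.measurable_floor.comp (measurable_const.mul measurable_id)

lemma measurableSet_cell (q c : ℕ) : MeasurableSet {x : ℝ | cidx q x = c} :=
  measurable_cidx q (measurableSet_singleton c)

lemma u01_cell {q c : ℕ} (hq : 1 ≤ q) (hc : c < q) :
    u01 {x : ℝ | cidx q x = c} = ENNReal.ofReal (1 / q) := by
  have hq0 : (0:ℝ) < q := by exact_mod_cast hq
  have hc1 : ((c:ℝ) + 1) / q ≤ 1 := by
    rw [div_le_one hq0]; exact_mod_cast hc
  have h : {x : ℝ | cidx q x = c} ∩ Set.Icc (0:ℝ) 1 = Set.Ico ((c:ℝ) / q) (((c:ℝ) + 1) / q) := by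
    ext x
    simp only [Set.mem_inter_iff, Set.mem_ofPred_eq, Set.mem_Icc, Set.mem_Ico, cidx]
    constructor
    · rintro ⟨h1, h2, h3⟩
      rw [Nat.floor_eq_iff (mul_nonneg hq0.le h2)] at h1
      rw [div_le_iff₀ hq0, lt_div_iff₀ hq0]
      constructor
      · linarith [h1.1, mul_comm (q:ℝ) x]
      · linarith [h1.2, mul_comm (q:ℝ) x]
    · rintro ⟨h1, h2⟩
      have hx0 : 0 ≤ x := le_trans (by positivity) h1
      rw [div_le_iff₀ hq0] at h1
      have h2' := h2
      rw [lt_div_iff₀ hq0] at h2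
      refine ⟨?_, hx0, by linarith⟩
      rw [Nat.floor_eq_iff (mul_nonneg hq0.le hx0)]
      constructor
      · linarith [mul_comm (q:ℝ) x]
      · linarith [mul_comm (q:ℝ) x]
  rw [u01, Measure.restrict_apply (measurableSet_cell q c), h, Real.volume_Ico]
  congr 1
  field_simp
  ring

/-- indicator of a cell -/
noncomputable def ind (q c : ℕ) : ℝ → ℝ := Set.indicator {x : ℝ | cidx q x = c} 1

lemma measurable_ind (q c : ℕ) : Measurable (ind q c) :=
  (measurable_one).indicator (measurableSet_cell q c)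

lemma ind_mem (q c : ℕ) (x : ℝ) : ind q c x ∈ Set.Icc (0:ℝ) 1 := by
  unfold ind
  by_cases h : x ∈ {x : ℝ | cidx q x = c}
  · rw [Set.indicator_of_mem h]; simp
  · rw [Set.indicator_of_notMem h]; simp

lemma memLp_ind (q c : ℕ) : MemLp (ind q c) 2 u01 :=
  memLp_of_bounded (a := 0) (b := 1) (Filter.Eventually.of_forall (ind_mem q c))
    (measurable_ind q c).aestronglyMeasurable 2

lemma integral_ind {q c : ℕ} (hq : 1 ≤ q) (hc : c < q) : ∫ x, ind q c x ∂u01 = 1 / q := by
  unfold ind
  rw [integral_indicator_one (measurableSet_cell q c), Measure.real, u01_cell hq hc,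
    ENNReal.toReal_ofReal (by positivity)]

open Classical in
lemma card_eq_sum {n : ℕ} (q c : ℕ) (x : Fin n → ℝ) :
    ((Finset.univ.filter (fun i => cidx q (x i) = c)).card : ℝ) = ∑ i, ind q c (x i) := by
  rw [Finset.card_filter]
  push_cast
  refine Finset.sum_congr rfl fun i _ => ?_
  unfold ind
  by_cases h : cidx q (x i) = c
  · rw [if_pos h, Set.indicator_of_mem (by exact h)]; rfl
  · rw [if_neg h, Set.indicator_of_notMem (by exact h)]

open Classical in
lemma one_cell {q c : ℕ} (hq : 1 ≤ q) (hc : c < q) {δ : ℝ} (hδ : 0 < δ) {n : ℕ} (hn : 1 ≤ n) :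
    typ n {x | ((Finset.univ.filter (fun i => cidx q (x i) = c)).card : ℝ) < (1 - δ) * n / q}
      ≤ ENNReal.ofReal ((q:ℝ) ^ 2 / (4 * δ ^ 2 * n)) := by
  have hq0 : (0:ℝ) < q := by exact_mod_cast hq
  have hn0 : (0:ℝ) < n := by exact_mod_cast hn
  have htyp : typ n = Measure.pi (fun _ : Fin n => u01) := rfl
  rw [htyp]
  set P : Measure (Fin n → ℝ) := Measure.pi (fun _ : Fin n => u01) with hP
  set S : (Fin n → ℝ) → ℝ := ∑ i, fun x : Fin n → ℝ => ind q c (x i) with hS
  have hSx : ∀ x, S x = ∑ i, ind q c (x i) := fun x => by rw [hS, Finset.sum_apply]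
  have hvar : Var[S; P] ≤ n / 4 := by
    have h1 : Var[S; P] = ∑ _i : Fin n, Var[ind q c; u01] :=
      variance_sum_pi (μ := fun _ : Fin n => u01) (X := fun _ : Fin n => ind q c)
        (fun _ => memLp_ind q c)
    have h2 : Var[ind q c; u01] ≤ ((1 - 0) / 2) ^ 2 :=
      variance_le_sq_of_bounded (Filter.Eventually.of_forall (ind_mem q c))
        (measurable_ind q c).aemeasurable
    rw [h1, Finset.sum_const, Finset.card_univ, Fintype.card_fin, nsmul_eq_mul]
    have h3 : (n:ℝ) * Var[ind q c; u01] ≤ n * ((1 - 0) / 2) ^ 2 :=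
      mul_le_mul_of_nonneg_left h2 hn0.le
    linarith
  have hmem : ∀ i : Fin n, MemLp (fun x : Fin n → ℝ => ind q c (x i)) 2 P := fun i =>
    (memLp_ind q c).comp_measurePreserving (measurePreserving_eval (fun _ : Fin n => u01) i)
  have hSmem : MemLp S 2 P := memLp_finsetSum' _ fun i _ => hmem i
  have hmean : ∫ x, S x ∂P = n / q := by
    have h1 : ∫ x, S x ∂P = ∑ i : Fin n, ∫ x, ind q c (x i) ∂P := by
      simp_rw [hSx]
      exact integral_finsetSum _ fun i _ => (hmem i).integrable (by norm_num)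
    rw [h1]
    have h2 : ∀ i : Fin n, ∫ x, ind q c (x i) ∂P = 1 / q := by
      intro i
      rw [hP, integral_comp_eval (μ := fun _ : Fin n => u01) (i := i)
        (measurable_ind q c).aestronglyMeasurable]
      exact integral_ind hq hc
    simp_rw [h2]
    rw [Finset.sum_const, Finset.card_univ, Fintype.card_fin, nsmul_eq_mul]
    ring
  have hcheb := meas_ge_le_variance_div_sq (μ := P) hSmem (c := δ * n / q) (by positivity)
  rw [hmean] at hcheb
  refine (measure_mono ?_).trans (hcheb.trans (ENNReal.ofReal_le_ofReal ?_))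
  · intro x hx
    simp only [Set.mem_ofPred_eq] at hx ⊢
    rw [card_eq_sum, ← hSx] at hx
    rw [abs_sub_comm]
    refine le_trans ?_ (le_abs_self _)
    have : (1 - δ) * n / q = n / q - δ * n / q := by ring
    linarith
  · rw [div_le_div_iff₀ (by positivity) (by positivity)]
    have : Var[S; P] * (4 * δ ^ 2 * n) ≤ (n / 4) * (4 * δ ^ 2 * n) :=
      mul_le_mul_of_nonneg_right hvar (by positivity)
    refine this.trans (le_of_eq ?_)
    field_simp

theorem taskCells : TaskCells := by
  classical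
  intro q δ θ hq hδ hθ
  have hq0 : (0:ℝ) < q := by exact_mod_cast hq
  obtain ⟨n0, hn0⟩ := exists_nat_ge ((q:ℝ) ^ 3 / (4 * δ ^ 2 * θ))
  refine ⟨max n0 1, fun n hn => ?_⟩
  have hn1 : 1 ≤ n := le_trans (le_max_right _ _) hn
  have hnr : (0:ℝ) < n := by exact_mod_cast hn1
  have hn2 : (q:ℝ) ^ 3 / (4 * δ ^ 2 * θ) ≤ n :=
    hn0.trans (by exact_mod_cast le_trans (le_max_left _ _) hn)
  have hsub : {x : Fin n → ℝ | ∃ c : Fin q,
      ((Finset.univ.filter (fun i => cidx q (x i) = c.1)).card : ℝ) < (1 - δ) * n / q} =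
      ⋃ c : Fin q, {x : Fin n → ℝ |
        ((Finset.univ.filter (fun i => cidx q (x i) = c.1)).card : ℝ) < (1 - δ) * n / q} := by
    ext x
    simp
  have key : typ n {x : Fin n → ℝ | ∃ c : Fin q,
      ((Finset.univ.filter (fun i => cidx q (x i) = c.1)).card : ℝ) < (1 - δ) * n / q}
      ≤ ENNReal.ofReal θ := by
    rw [hsub]
    refine (measure_iUnion_fintype_le _ _).trans ?_
    refine (Finset.sum_le_sum fun c _ => one_cell hq c.2 hδ hn1).trans ?_
    rw [Finset.sum_const, Finset.card_univ, Fintype.card_fin, nsmul_eq_mul,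
      ← ENNReal.ofReal_natCast, ← ENNReal.ofReal_mul (Nat.cast_nonneg q)]
    refine ENNReal.ofReal_le_ofReal ?_
    rw [div_le_iff₀ (by positivity)] at hn2
    rw [mul_div_assoc', div_le_iff₀ (by positivity)]
    nlinarith [hn2]
  convert key using 3

end Pool.Agent.H339R3.CHI
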